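import Pool.Agent.N733.TG.K
import Pool.Agent.Results.MP_a60a76_nt.FewPartners

/-!
# Curves congruent to a given curve and the values of multiplicative functions

Let `f` be a positive multiplicative function of at most polynomial growth such that `f p ≤ M p` for the large primes `p`,
with different values at different large primes; for example Euler's function or the sum of the divisors. Let `P ≥ 17`,
`α > 0`, `1 ≤ e < 2 P / 7` and `κ < 1 - 7 e / (2 P)`. Let `E₀` be any elliptic curve over `ℚ`. For all `m ≤ N` but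
`N / (log N)^U`, no elliptic curve over `ℚ` whose invariant `j` has height `H(j)` with `|H(j) - α f(m)^e| ≤ f(m)^κ` is
`p`-congruent to `E₀` for a prime `p ≥ P`. More generally `G (f m)` takes the place of `α f(m)^e`, where `G` is any function
with steps bounded below by a positive constant and growth at most `v^e`. The values of `f` are in general taken with very
large multiplicities, and so this does not follow from the number of the partners of `E₀` alone.

The tool is `Pool.Agent.N733.TG` (helper733); the partners are counted by the starting theorem `FewPartners` of this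
problem.
-/

set_option autoImplicit false

open WeierstrassCurve
open scoped Classical

namespace Pool.Agent.Results.MP_a60a76_nt.MultiplicativeValues

open Pool.Agent.N733.TG (LM Expanding lm_totient lm_sigma keep_windows expanding_pow)

/-- The curve `y² = x³ + Ax + B` over `ℚ`. -/
def curve (A B : ℚ) : WeierstrassCurve ℚ := ⟨0, 0, 0, A, B⟩

/-- The group of its points over the algebraic closure of `ℚ`. -/
abbrev Points (A B : ℚ) : Type := ((curve A B).baseChange (AlgebraicClosure ℚ)).toAffine.Point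

/-- The action of an automorphism `σ` of the algebraic closure on the points. -/
noncomputable def galois (A B : ℚ) (σ : AlgebraicClosure ℚ ≃ₐ[ℚ] AlgebraicClosure ℚ) :
    Points A B →+ Points A B :=
  WeierstrassCurve.Affine.Point.map (σ : AlgebraicClosure ℚ →ₐ[ℚ] AlgebraicClosure ℚ)

/-- The curves `y² = x³ + Ax + B` and `y² = x³ + A'x + B'` are `p`-congruent: some map between the
groups of points restricts to a bijective additive map between the groups of points killed by `p` which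
commutes with the Galois group. -/
def Congruent (p : ℕ) (A B A' B' : ℚ) : Prop :=
  ∃ f : Points A B → Points A' B', (∀ P Q, p • P = 0 → p • Q = 0 → f (P + Q) = f P + f Q) ∧
    Set.BijOn f {P | p • P = 0} {Q | p • Q = 0} ∧
    ∀ (σ : AlgebraicClosure ℚ ≃ₐ[ℚ] AlgebraicClosure ℚ) (P : Points A B), p • P = 0 →
      f (galois A B σ P) = galois A' B' σ (f P)

/-- The invariant of `y² = x³ + Ax + B`. -/
def jInvariant (A B : ℚ) : ℚ := 6912 * A ^ 3 / (4 * A ^ 3 + 27 * B ^ 2)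

/-- the height of a rational number: the maximum of the absolute values of numerator and denominator -/
def ht (j : ℚ) : ℕ := max j.num.natAbs j.den

/-- the invariants of the curves which are `p`-congruent to `y² = x³ + A₀x + B₀` for some prime `p ≥ P` -/
def Exc (P : ℕ) (A₀ B₀ : ℤ) : Set ℚ :=
  {j | ∃ A B : ℚ, 4 * A ^ 3 + 27 * B ^ 2 ≠ 0 ∧ jInvariant A B = j ∧
      ∃ p : ℕ, p.Prime ∧ P ≤ p ∧ Congruent p A B (A₀ : ℚ) (B₀ : ℚ)}

lemma count (P : ℕ) (hP : 17 ≤ P) (A₀ B₀ : ℤ) (h0 : 4 * A₀ ^ 3 + 27 * B₀ ^ 2 ≠ 0) (ε : ℝ) (hε : 0 < ε) :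
    ∃ C : ℝ, ∀ X : ℝ, 1 ≤ X →
      {j | j ∈ Exc P A₀ B₀ ∧ (ht j : ℝ) ≤ X}.Finite ∧
      ({j | j ∈ Exc P A₀ B₀ ∧ (ht j : ℝ) ≤ X}.ncard : ℝ) ≤ C * X ^ (7 / (2 * P) + ε) := by
  obtain ⟨C, κ, h⟩ := FewPartners.result ε hε
  refine ⟨C * |((4 * A₀ ^ 3 + 27 * B₀ ^ 2 : ℤ) : ℝ)| ^ κ, fun X hX => ?_⟩
  obtain ⟨hfin, hcard⟩ := h A₀ B₀ h0 P X hP hX
  have hsub : {j | j ∈ Exc P A₀ B₀ ∧ (ht j : ℝ) ≤ X} ⊆ FewPartners.Partners P A₀ B₀ X := by
    rintro j ⟨⟨A, B, h1, h2, h3⟩, hj⟩
    have hn : (j.num.natAbs : ℝ) ≤ (ht j : ℝ) := by exact_mod_cast le_max_left j.num.natAbs j.den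
    have hd : (j.den : ℝ) ≤ (ht j : ℝ) := by exact_mod_cast le_max_right j.num.natAbs j.den
    have ha : |(j.num : ℝ)| = (j.num.natAbs : ℝ) := by
      rw [← Int.cast_abs, Int.abs_eq_natAbs]
      simp
    refine ⟨?_, hd.trans hj, A, B, h1, h2, h3⟩
    rw [ha]
    exact hn.trans hj
  refine ⟨hfin.subset hsub, ?_⟩
  refine le_trans ?_ hcard
  exact_mod_cast Set.ncard_le_ncard hsub hfin

/-- **Theorem.** Let `f` be multiplicative and positive, of at most polynomial growth, with `f p ≤ M p` at the large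
primes, and injective there. Let `G` have steps `≥ a > 0` and growth at most `v^e`. Let `P ≥ 17`, `κ ≥ 0` and
`7 e / (2 P) + κ < 1`. Let `E₀ : y² = x³ + A₀x + B₀` be an elliptic curve, `A₀`, `B₀` integers. For every `U` and all large
`N`, for all `m ≤ N` but `N / (log N)^U`: no elliptic curve `y² = x³ + Ax + B` over `ℚ` whose invariant has a height `H` with
`|H - G (f m)| ≤ f(m)^κ` is `p`-congruent to `E₀` for any prime `p ≥ P`. Euler's function and the sum of the divisors are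
examples of such functions `f`, and `α v^e` with `α > 0`, `e ≥ 1` is an example of `G`. -/
theorem result :
    (∀ f : ℕ → ℕ, LM f → ∀ (G : ℕ → ℝ) (e : ℝ), Expanding G e → ∀ (κ : ℝ) (P : ℕ), 0 ≤ κ → 17 ≤ P →
      e * (7 / (2 * P)) + κ < 1 → ∀ A₀ B₀ : ℤ, 4 * A₀ ^ 3 + 27 * B₀ ^ 2 ≠ 0 → ∀ U : ℕ, ∃ N₀ : ℕ, ∀ N : ℕ, N₀ ≤ N →
      ({m : ℕ | 1 ≤ m ∧ m ≤ N ∧ ¬ ∀ A B : ℚ, 4 * A ^ 3 + 27 * B ^ 2 ≠ 0 →
        |(ht (jInvariant A B) : ℝ) - G (f m)| ≤ (f m : ℝ) ^ κ →
          ∀ p : ℕ, p.Prime → P ≤ p → ¬ Congruent p A B (A₀ : ℚ) (B₀ : ℚ)}.ncard : ℝ) ≤ N / Real.log N ^ U) ∧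
    (LM Nat.totient ∧ LM (fun m => ∑ d ∈ m.divisors, d)) ∧
    ∀ α e : ℝ, 0 < α → 1 ≤ e → Expanding (fun v => α * (v : ℝ) ^ e) e := by
  refine ⟨fun f hf G e hG κ P hκ hP h1 A₀ B₀ h0 U => ?_, ⟨lm_totient, lm_sigma⟩,
    fun α d hα hd => expanding_pow hα hd⟩
  obtain ⟨N₀, hN₀⟩ := keep_windows (Exc P A₀ B₀) (fun j : ℚ => (ht j : ℝ)) hf hG (s := 7 / (2 * P)) (κ := κ)
    (by positivity) hκ h1 (fun η hη => count P hP A₀ B₀ h0 η hη) U
  refine ⟨N₀, fun N hN => le_trans ?_ (hN₀ N hN)⟩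
  have hfin : {m : ℕ | 1 ≤ m ∧ m ≤ N ∧ ∃ j ∈ Exc P A₀ B₀, |(ht j : ℝ) - G (f m)| ≤ (f m : ℝ) ^ κ}.Finite :=
    (Set.finite_Icc 1 N).subset fun m hm => ⟨hm.1, hm.2.1⟩
  refine Nat.cast_le.2 (Set.ncard_le_ncard ?_ hfin)
  rintro m ⟨h3, h4, h5⟩
  push Not at h5
  obtain ⟨A, B, hAB, hw, p, hp, hPp, hcon⟩ := h5
  exact ⟨h3, h4, jInvariant A B, ⟨A, B, hAB, rfl, p, hp, hPp, hcon⟩, hw⟩

end Pool.Agent.Results.MP_a60a76_nt.MultiplicativeValues
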