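import Pool.Agent.N403.ORB.Curves
import Pool.Agent.N24.RW.All
import Pool.Agent.Results.MP_a60a76_nt.AllSmallerCurves

/-!
# MP_a60a76_nt: congruences of the elliptic curves on random orbits

Let `κ` be a finite nonempty set and `s_0, …, s_m` matrices in `SL_{2|κ|}(ℤ)` which generate
`SL_{2|κ|}(ℤ/q)` for all `q` prime to some `q₀`; by strong approximation this is the case for every
finite set which generates a Zariski dense subgroup, for example for thin groups (of infinite index).
For independent, uniformly distributed indices `w 0, w 1, …` and a vector `v ≠ 0` let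
`c_0 = v`, `c_{n+1} = s_{w n} c_n` and let `E_k(n) : y² = x³ + c_n(k,0) x + c_n(k,1)`, `k ∈ κ`.

**Theorem.** Almost surely the following holds.

* For all `D`, for all `n` outside a set of density zero: the `E_k(n)`, `k ∈ κ`, are elliptic curves,
  pairwise not congruent modulo ANY `m ≥ 2`; and for each `k` there are more than `D` primes `q > D`
  which divide `4A³ + 27B²` for ALL curves `y² = x³ + Ax + B`, `A, B ∈ ℤ`, congruent to `E_k(n)` modulo
  some `m ≥ 2`; in particular no curve with good reduction outside the primes `≤ D` is congruent to
  `E_k(n)`, and no curve with at most `D` primes of bad reduction.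
* For all pairs `(n, n')` of times outside a set of density zero no `E_k(n)` is congruent, modulo any
  `m ≥ 2`, to an `E_l(n')`.

Moreover the parameters of the exceptional (tuples of) curves have a closure of measure zero in the
product of the `ℤ_p`, `p ∤ M`, for each `M`. There is no condition on `m`, and no curves (twists,
isogenous curves) are left out. Only `N` of the curves of height `e ^ (c N)` are considered, and the
orbit may be that of a group of infinite index, so this does not follow from results on 100% of the
curves ordered by the height, or on polynomially thin sequences.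

Proof. A prime `q ≥ 5` which divides `4A³ + 27B²` exactly once divides the discriminants of all curves
congruent to `y² = x³ + Ax + B` (projects FM and FML of helper275, starting files). This is a condition
modulo `q²` of density about `1 / q`, so the exceptional parameters have a closure of measure zero. By
the ergodic theorem for random walks on finite groups a random orbit is equidistributed in the orbit of
`v` modulo each `q` prime to `q₀` and to `v`, which contains at least half of all vectors (engine of
helper24, `Pool/Agent/N24/RW`); for pairs of times see `Pool/Agent/N403/ORB/Pair.lean`.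
-/

set_option autoImplicit false

namespace Pool.Agent.Results.MP_a60a76_nt.RandomOrbits

open MeasureTheory Filter Topology
open Pool.Agent.Results.MP_a60a76_nt.AllSmallerCurves (Congruent disc)
open Pool.Agent.N24.RW (Walk orb words ProNull)

/-- The curves `y² = x³ + Ax + B` and `y² = x³ + A'x + B'` are congruent modulo some integer
`m ≥ 2`. -/
def SomeCongruence (A B A' B' : ℤ) : Prop := ∃ m : ℕ, 2 ≤ m ∧ Congruent m A B A' B'

/-- There are more than `D` primes `q > D` which divide `4A'³ + 27B'²` for all elliptic curves
`y² = x³ + A'x + B'`, `A'` and `B'` integers, congruent to `y² = x³ + Ax + B` modulo some integer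
`m ≥ 2`. -/
def LargePrimes (D : ℕ) (A B : ℤ) : Prop :=
  ∃ S : Finset ℕ, D < S.card ∧ ∀ q ∈ S, q.Prime ∧ D < q ∧ ∀ A' B' : ℤ, disc A' B' ≠ 0 →
    SomeCongruence A B A' B' → (q : ℤ) ∣ disc A' B'

/-- The curves `y² = x³ + c(k,0) x + c(k,1)`, `k ∈ κ`, are elliptic curves without congruences with
each other, and each of them is only congruent to curves with more than `D` given bad primes above
`D`. -/
def Isolated {κ : Type} (D : ℕ) (c : κ × Fin 2 → ℤ) : Prop := ∀ k : κ,
  disc (c (k, 0)) (c (k, 1)) ≠ 0 ∧ LargePrimes D (c (k, 0)) (c (k, 1)) ∧
    ∀ l : κ, l ≠ k → ¬ SomeCongruence (c (k, 0)) (c (k, 1)) (c (l, 0)) (c (l, 1))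

/-- **Congruences on random orbits.**  Let `κ` be a finite nonempty set. For all `D` the parameters of
the families of curves which are not `Isolated D` form a pronull set. Let `W` be a finite family of
integral matrices of size `κ × Fin 2` which generates `SL(ℤ/q)` for all `q` prime to some `q₀`, and
`v ≠ 0`. For almost all sequences `w`: for all `D` the families of curves with the parameters
`c_n = s_{w (n-1)} ⋯ s_{w 0} v` are `Isolated D` for all `n` outside a set of density zero, and for all
pairs `(n, n')` outside a set of density zero no curve of the family of `c_n` is congruent to a curve of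
the family of `c_{n'}` modulo some `m ≥ 2`. -/
theorem result (κ : Type) [Fintype κ] [DecidableEq κ] [Nonempty κ] :
    (∀ D : ℕ, ProNull {c : κ × Fin 2 → ℤ | ¬ Isolated D c}) ∧
    ∀ (W : Walk (κ × Fin 2)) (v : κ × Fin 2 → ℤ), v ≠ 0 → ∀ᵐ w ∂(words W.m),
      (∀ D : ℕ, Tendsto (fun N : ℕ =>
        (({n : ℕ | n < N ∧ ¬ Isolated D (orb W v w n)}.ncard : ℕ) : ℝ) / (N : ℝ)) atTop (𝓝 0)) ∧
      Tendsto (fun N : ℕ => (({p : ℕ × ℕ | p.1 < N ∧ p.2 < N ∧ ∃ k l : κ,
        SomeCongruence (orb W v w p.1 (k, 0)) (orb W v w p.1 (k, 1)) (orb W v w p.2 (l, 0))
          (orb W v w p.2 (l, 1))}.ncard : ℕ) : ℝ) / (N : ℝ) ^ 2) atTop (𝓝 0) := by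
  refine ⟨fun D => Pool.Agent.N403.ORB.pnGood Pool.Agent.N24.RW.crit Pool.Agent.N24.RW.clo D,
    fun W v hv => ?_⟩
  exact Pool.Agent.N403.ORB.main Pool.Agent.N24.RW.crit Pool.Agent.N24.RW.clo Pool.Agent.N24.RW.main
    Pool.Agent.N24.RW.t_ORB Pool.Agent.N24.RW.t_ERG W v hv

end Pool.Agent.Results.MP_a60a76_nt.RandomOrbits
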