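import Pool.Agent.N384.VF.FM
import Pool.Agent.N384.VF.Ex
import Pool.Agent.Results.MP_a60a76_nt.AllSmallerCurves

/-!
# MP_a60a76_nt: congruences of the elliptic curves whose coefficients are in families of vectors of residues

`Congruent m A B A' B'` and `disc A B = 4 A³ + 27 B²` are from the starting result `AllSmallerCurves`: an isomorphism between the
Galois modules of the `m`-torsion points of the elliptic curves `y² = x³ + Ax + B` and `y² = x³ + A'x + B'`.

From Mathlib: `ZMod.stdAddChar`: the additive character `j ↦ exp (2 π i j / q)` of the integers modulo `q`; `ZMod.val`: the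
least residue; `Fintype.piFinset`: the product of finite sets.

Proof. A prime `p ≥ 5` which divides `4A³ + 27B²` exactly once divides the discriminants of all
curves congruent to `E` (projects FM and FML of helper275, starting files). A family of vectors of residues modulo `q` with small Fourier coefficients is uniformly distributed
in the residue classes modulo all integers up to a power of `Z` (`N384/VF`: completion in each coordinate).
Turan's sieve (`Pool.Agent.N666.TM`, `N457.FT`) for the primes `Z ^ δ < p ≤ Z ^ δ'` gives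
for almost all members a prime `p > Z ^ δ` which divides the discriminant of `E` exactly once and does
not divide that of `E'`. It divides at most the proportion `2/p` of the discriminants of the members of any family with
`Z' ≥ Z`. Examples: products, the lemma of Ajtai, Iwaniec, Komlos, Pintz and Szemeredi on quotients by small primes, the
Stepanov type lemma of Heath-Brown and Konyagin for subgroups (library `H435R3.HBK`, `N825.FC`), and Weyl sums without
losses (library `H373R2.NB`).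
-/

set_option autoImplicit false

namespace Pool.Agent.Results.MP_a60a76_nt.ResidueVectors

open Pool.Agent.Results.MP_a60a76_nt.AllSmallerCurves (Congruent disc)

/-- The Fourier coefficients of the vectors of residues `y i`, `i ∈ s`, modulo `q` at the nonzero frequencies are at most
`η` times the number of the vectors: `|∑ i ∈ s, e(h·y_i / q)| ≤ η |s|` for all vectors `h ≠ 0` modulo `q`. -/
def Flat {τ ι : Type} [Fintype ι] (q : ℕ) [NeZero q] (η : ℝ) (s : Finset τ) (y : τ → ι → ZMod q) : Prop :=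
  ∀ h : ι → ZMod q, h ≠ 0 → ‖∑ i ∈ s, (ZMod.stdAddChar (∑ j, h j * y i j) : ℂ)‖ ≤ η * s.card

/-- The same for residues (vectors with one coordinate). -/
def Flat1 {τ : Type} (q : ℕ) [NeZero q] (η : ℝ) (s : Finset τ) (y : τ → ZMod q) : Prop :=
  ∀ h : ZMod q, h ≠ 0 → ‖∑ i ∈ s, (ZMod.stdAddChar (h * y i) : ℂ)‖ ≤ η * s.card

/-- `Z ≤ q`, and the Fourier coefficients at the nonzero frequencies are at most `|s| / (Z (42 + 3 log q) ^ r)`, where `r` is
the number of the coordinates. -/
def Small {τ ι : Type} [Fintype ι] (q : ℕ) [NeZero q] (Z : ℝ) (s : Finset τ) (y : τ → ι → ZMod q) : Prop :=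
  Z ≤ q ∧ Flat q (1 / (Z * (42 + 3 * Real.log q) ^ Fintype.card ι)) s y

/-- The integral vector `c₀ + y_i`, with the least residues `0 ≤ y_i < q`. -/
def vec {τ ι : Type} {q : ℕ} (y : τ → ι → ZMod q) (c₀ : ι → ℤ) (i : τ) (j : ι) : ℤ := c₀ j + ((y i j).val : ℕ)

/-- The curves `y² = x³ + Ax + B` and `y² = x³ + A'x + B'` are congruent modulo some integer
`m ≥ 2`. -/
def SomeCongruence (A B A' B' : ℤ) : Prop := ∃ m : ℕ, 2 ≤ m ∧ Congruent m A B A' B'

/-- One prime `p > X` divides `4A'³ + 27B'²` for all elliptic curves `y² = x³ + A'x + B'`, `A'` and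
`B'` integers, which are congruent to `y² = x³ + Ax + B` modulo some integer `m ≥ 2`. -/
def LargePrime (X : ℝ) (A B : ℤ) : Prop :=
  ∃ p : ℕ, p.Prime ∧ X < p ∧ ∀ A' B' : ℤ, disc A' B' ≠ 0 → SomeCongruence A B A' B' → (p : ℤ) ∣ disc A' B'

/-- In all families of vectors of two residues with a parameter `Z' ≥ Z`, at all integral vectors `c₀'`, all but the proportion
`Z ^ (-δ)` of the members `(A', B') = c₀' + y'_t` give elliptic curves `y² = x³ + A'x + B'` without a congruence with
`y² = x³ + Ax + B`. -/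
def FewCongruent (Z δ : ℝ) (A B : ℤ) : Prop :=
  ∀ (τ' : Type) (q' : ℕ) [NeZero q'] (s' : Finset τ') (y' : τ' → Fin 2 → ZMod q') (Z' : ℝ), Z ≤ Z' → Small q' Z' s' y' →
    ∀ c₀' : Fin 2 → ℤ, ({t : τ' | t ∈ s' ∧ (disc (vec y' c₀' t 0) (vec y' c₀' t 1) = 0 ∨
      SomeCongruence A B (vec y' c₀' t 0) (vec y' c₀' t 1))}.ncard : ℝ) ≤ Z ^ (-δ) * s'.card

/-- **(1)** For all `ε > 0` there are `δ > 0` and `Z₀` such that for all families of vectors `y_i`, `i ∈ s`, of four residues modulo
any `q` with Fourier coefficients at most `|s| / (Z (42 + 3 log q) ^ 4)` at all nonzero frequencies, where `Z₀ ≤ Z ≤ q`, and for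
all integral vectors `c₀`: for all but `ε |s|` of the `i`, with `(A, B, A', B') = c₀ + y_i`, `y² = x³ + Ax + B` and
`y² = x³ + A'x + B'` are elliptic curves without congruences modulo integers `m ≥ 2`; a prime above `Z ^ δ` divides the
discriminants of all curves with a congruence with `y² = x³ + Ax + B`; and in ALL families of vectors of two residues with a
parameter `Z' ≥ Z` all but the proportion `Z ^ (-δ)` of the members give elliptic curves without a congruence with
`y² = x³ + Ax + B`.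

**(2)** Products: if the residues `y_j(t)`, `t ∈ s_j`, have Fourier coefficients at most `η |s_j|` for each coordinate `j`, then
the product family of vectors `(y_j(g_j))_j`, `g_j ∈ s_j`, has Fourier coefficients at most `η` times the number of its members.

**(3)** Families of residues modulo primes `p` with Fourier coefficients at most `|s| / K`, `K ≥ 1` arbitrary: the quotients
`j / r` of the integers `0 ≤ j < S` by the primes `r ≤ R`, if `K log ^ 4 p ≤ R < p` and `R ^ 2 ≤ S` (and `p` is large); the cosets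
of all subgroups of the multiplicative group of an order of at least `5 p ^ (3/8) K ^ 3`; the residues `a b + g(a) + k(b)`,
`a ∈ A`, `b ∈ B`, for arbitrary sets with `|A| |B| ≥ p K ^ 2` and arbitrary functions `g` and `k`.

**(4)** Polynomial curves: for `1 ≤ d ≤ D` there is `C` such that for all primes `p` and all integral polynomials `f_j` of
pairwise distinct degrees between `d` and `D` whose leading coefficients are not divisible by `p`, the vectors `(f_j(n))_j`
modulo `p`, `0 ≤ n < x`, have Fourier coefficients at most `x / K` for all `K ≥ 1` with `C K ^ C ≤ p` and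
`C K ^ C p ≤ x ^ d`. (So there are such families with only about `p ^ (1 / d)` members.) -/
theorem result :
    (∀ ε : ℝ, 0 < ε → ∃ δ : ℝ, 0 < δ ∧ ∃ Z₀ : ℕ, ∀ (τ : Type) (q : ℕ) [NeZero q] (s : Finset τ)
      (y : τ → Fin 4 → ZMod q) (Z : ℝ), Z₀ ≤ Z → Small q Z s y → ∀ c₀ : Fin 4 → ℤ,
      ({i : τ | i ∈ s ∧ ¬ (disc (vec y c₀ i 0) (vec y c₀ i 1) ≠ 0 ∧ disc (vec y c₀ i 2) (vec y c₀ i 3) ≠ 0 ∧
        ¬ SomeCongruence (vec y c₀ i 0) (vec y c₀ i 1) (vec y c₀ i 2) (vec y c₀ i 3) ∧
        LargePrime (Z ^ δ) (vec y c₀ i 0) (vec y c₀ i 1) ∧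
        FewCongruent Z δ (vec y c₀ i 0) (vec y c₀ i 1))}.ncard : ℝ) ≤ ε * s.card) ∧
    (∀ (ι : Type) [Fintype ι] [DecidableEq ι] (q : ℕ) [NeZero q] (η : ℝ) (τ : Type) (s : ι → Finset τ) (y : ι → τ → ZMod q),
      (∀ j, Flat1 q η (s j) (y j)) → Flat q η (Fintype.piFinset s) (fun g j => y j (g j))) ∧
    (∃ P₀ : ℕ, ∀ p : ℕ, P₀ ≤ p → ∀ [Fact p.Prime] (K : ℝ), 1 ≤ K →
      (∀ R S : ℕ, K * Real.log p ^ 4 ≤ R → R < p → R ^ 2 ≤ S →
        Flat1 p (1 / K) (((Finset.Icc 1 R).filter Nat.Prime) ×ˢ Finset.range S)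
          (fun z => ((z.2 : ℕ) : ZMod p) * ((z.1 : ℕ) : ZMod p)⁻¹)) ∧
      (∀ (H : Subgroup (ZMod p)ˣ) (s : Finset (ZMod p)ˣ), (∀ u, u ∈ s ↔ u ∈ H) →
        5 * (p : ℝ) ^ (3 / 8 : ℝ) * K ^ 3 ≤ s.card → ∀ x : ZMod p, x ≠ 0 → Flat1 p (1 / K) s (fun u => x * (u : ZMod p))) ∧
      (∀ (A B : Finset (ZMod p)) (g k : ZMod p → ZMod p), (p : ℝ) * K ^ 2 ≤ A.card * B.card →
        Flat1 p (1 / K) (A ×ˢ B) (fun z => z.1 * z.2 + g z.1 + k z.2))) ∧
    (∀ d D : ℕ, 1 ≤ d → ∃ C : ℕ, ∀ (ι : Type) [Fintype ι] (p : ℕ) [Fact p.Prime] (f : ι → Polynomial ℤ),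
      (∀ j, d ≤ (f j).natDegree ∧ (f j).natDegree ≤ D ∧ ¬ (p : ℤ) ∣ (f j).leadingCoeff) →
      Function.Injective (fun j => (f j).natDegree) → ∀ K : ℝ, 1 ≤ K → C * K ^ C ≤ p → ∀ x : ℕ,
      C * K ^ C * p ≤ (x : ℝ) ^ d → Flat p (1 / K) (Finset.range x) (fun n j => (((f j).eval (n : ℤ) : ℤ) : ZMod p))) := by
  refine ⟨fun ε hε => ?_, ⟨fun ι _ _ q _ η τ s y h => Pool.Agent.N384.VF.flat_pi q η s y h, ?_,
    fun d D hd => Pool.Agent.N384.VF.flat_poly d D hd⟩⟩
  · obtain ⟨δ, hδ, Z₀, h1⟩ := Pool.Agent.N384.VF.fm_main ε hε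
    refine ⟨δ, hδ, Z₀, fun τ q _ s y Z hZ hsm c₀ => ?_⟩
    refine le_trans (Pool.Agent.N384.VF.ncard_mono fun i _ hnot => ?_) (h1 τ q s y Z hZ ⟨hsm.1, hsm.2⟩ c₀)
    intro hgood
    apply hnot
    obtain ⟨g1, g2, g3, g4, g5⟩ := hgood _ rfl
    exact ⟨g1, g2, g3, g4, fun τ' q' _ s' y' Z' hZ' hsm' c₀' => g5 τ' q' s' y' Z' hZ' ⟨hsm'.1, hsm'.2⟩ c₀'⟩
  · obtain ⟨P₀, h0⟩ := Pool.Agent.N384.MQ.flatK_quot
    exact ⟨P₀, fun p hp _ K hK => ⟨fun R S => h0 p hp K hK R S,
      fun H s hs hc x hx => Pool.Agent.N384.MQ.flatK_coset p H s hs K hK hc x hx,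
      fun A B g k hAB => Pool.Agent.N384.MQ.flatK_prod p A B g k K hK hAB⟩⟩

end Pool.Agent.Results.MP_a60a76_nt.ResidueVectors
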