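import Pool.Agent.N457.FT.Main
import Pool.Agent.Results.MP_a60a76_nt.AllSmallerCurves

/-!
# MP_a60a76_nt: congruences of the elliptic curves in thin sequences

Let `P_0, …, P_3` be generalised polynomials `P(t) = ∑ a_x t ^ x` (finitely many real exponents, real
coefficients) with distinct leading exponents which are positive and not integers and have positive
coefficients, for example `t ^ √2`, `t ^ (5/2)`, `π t ^ 0.3`, `t ^ (1/2) + 7`. Consider the curves

`E_t : y² = x³ + ⌊P_0(t)⌋ x + ⌊P_1(t)⌋`,  `E'_t : y² = x³ + ⌊P_2(t)⌋ x + ⌊P_3(t)⌋`.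

**Theorem.** For every `ε > 0` there is `δ > 0` such that for all large `N` and all integers `t` in
`(N, 2N]` with at most `ε N` exceptions, and also for all but the proportion `ε` of the primes `t` in
`(N, 2N]`, the curve `E_t` is not congruent, modulo ANY `m ≥ 2`,

* to the curve `E'_t` with the same parameter;
* to any elliptic curve over `ℚ` with (short integral equation of) discriminant at most `N ^ δ`; in
  fact one prime `q > N ^ δ` divides the discriminants of all curves congruent to `E_t`;
* for every `N' ≥ N`, to the curves `E_{t'}` and `E'_{t'}` with `t'` in `(N', 2N']`, with at most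
  `N ^ (-δ) N'` exceptions `t'` (a saving of a power; the same for primes `t'`).

There is no condition on `m`, and no curves (twists, isogenous curves) are left out. Only about `N`
curves of height `N ^ C` are considered, so this does not follow from results on 100% of the curves
of bounded height.

Proof. A prime `q ≥ 5` which divides `4A³ + 27B²` exactly once divides the discriminants of all
curves congruent to `E` (projects FM and FML of helper275, starting files). By exponential sums
(`Pool.Agent.Y961.JR` of the starting library; engine of helper666) the integers `⌊P_i(t)⌋` are jointly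
equidistributed modulo all `q ≤ N ^ κ`, over the integers and over the primes `t ≤ N`. Turan's sieve
for the primes `N ^ δ < q ≤ N ^ (κ/4)`, for which the sum of the `1/q` is about `log (κ/(4δ))`, gives
for almost all `t` a prime `q > N ^ δ` which divides the discriminant of `E_t` exactly once and does
not divide that of `E'_t`. At every scale `N' ≥ N` it divides at most the proportion `4/q` of the
discriminants of the `E_{t'}`, `E'_{t'}`.
-/

set_option autoImplicit false

namespace Pool.Agent.Results.MP_a60a76_nt.ThinSequences

open Pool.Agent.Results.MP_a60a76_nt.AllSmallerCurves (Congruent disc)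

/-- `c` is the largest exponent of the generalised polynomial `∑ a_x t ^ x`; it is positive and not an
integer and has a positive coefficient. -/
def Admissible (F : Finset ℝ) (a : ℝ → ℝ) (c : ℝ) : Prop :=
  c ∈ F ∧ (∀ x ∈ F, x ≤ c) ∧ 0 < c ∧ (∀ m : ℕ, c ≠ m) ∧ 0 < a c

/-- The integer part of the value at `t` of the generalised polynomial `∑ a_x t ^ x`. -/
noncomputable def value (F : Finset ℝ) (a : ℝ → ℝ) (t : ℕ) : ℤ := ⌊∑ x ∈ F, a x * (t : ℝ) ^ x⌋

/-- The integers (`b = false`) or the primes (`b = true`) in `(N, 2 N]`. -/
def window (b : Bool) (N : ℕ) : Finset ℕ :=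
  if b then (Finset.Ioc N (2 * N)).filter Nat.Prime else Finset.Ioc N (2 * N)

/-- The curves `y² = x³ + Ax + B` and `y² = x³ + A'x + B'` are congruent modulo some integer
`m ≥ 2`. -/
def SomeCongruence (A B A' B' : ℤ) : Prop := ∃ m : ℕ, 2 ≤ m ∧ Congruent m A B A' B'

/-- One prime `q > X` divides `4A'³ + 27B'²` for all elliptic curves `y² = x³ + A'x + B'`, `A'` and
`B'` integers, which are congruent to `y² = x³ + Ax + B` modulo some integer `m ≥ 2`. -/
def LargePrime (X : ℝ) (A B : ℤ) : Prop :=
  ∃ q : ℕ, q.Prime ∧ X < q ∧ ∀ A' B' : ℤ, disc A' B' ≠ 0 → SomeCongruence A B A' B' →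
    (q : ℤ) ∣ disc A' B'

/-- **Congruences in thin sequences.**  Let `A`, `B`, `A'`, `B'` be the sequences of the integer parts
of the values of four generalised polynomials with distinct positive non-integral leading exponents.
For all `ε > 0` there are `δ > 0` and `N₀` such that for `N ≥ N₀` all but the proportion `ε` of the
integers (or primes) `t` in `(N, 2N]` have the following properties: `y² = x³ + A(t)x + B(t)` and
`y² = x³ + A'(t)x + B'(t)` are elliptic curves without congruences modulo integers `m ≥ 2`; a prime
above `N ^ δ` divides the discriminants of all curves with a congruence with `y² = x³ + A(t)x + B(t)`;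
and for all `N' ≥ N` all but the proportion `N ^ (-δ)` of the integers (or primes) `t'` in `(N', 2N']`
give elliptic curves `y² = x³ + A(t')x + B(t')` and `y² = x³ + A'(t')x + B'(t')` without a congruence
with `y² = x³ + A(t)x + B(t)`. -/
theorem result (F : Fin 4 → Finset ℝ) (a : Fin 4 → ℝ → ℝ) (c : Fin 4 → ℝ)
    (h : ∀ i, Admissible (F i) (a i) (c i)) (hc : Function.Injective c) (A B A' B' : ℕ → ℤ)
    (hA : A = value (F 0) (a 0)) (hB : B = value (F 1) (a 1)) (hA' : A' = value (F 2) (a 2))
    (hB' : B' = value (F 3) (a 3)) (b b' : Bool) (ε : ℝ) (hε : 0 < ε) :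
    ∃ δ : ℝ, 0 < δ ∧ ∃ N₀ : ℕ, ∀ N : ℕ, N₀ ≤ N →
      ({t : ℕ | t ∈ window b N ∧ ¬ (disc (A t) (B t) ≠ 0 ∧ disc (A' t) (B' t) ≠ 0 ∧
        ¬ SomeCongruence (A t) (B t) (A' t) (B' t) ∧
        LargePrime ((N : ℝ) ^ δ) (A t) (B t) ∧
        ∀ N' : ℕ, N ≤ N' → ({t' : ℕ | t' ∈ window b' N' ∧
          (disc (A t') (B t') = 0 ∨ disc (A' t') (B' t') = 0 ∨
            SomeCongruence (A t) (B t) (A t') (B t') ∨
            SomeCongruence (A t) (B t) (A' t') (B' t'))}.ncard : ℝ) ≤
            (N : ℝ) ^ (-δ) * (window b' N').card)}.ncard : ℝ) ≤ ε * (window b N).card := by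
  subst hA hB hA' hB'
  exact Pool.Agent.N457.FT.thin h hc b b' ε hε

end Pool.Agent.Results.MP_a60a76_nt.ThinSequences
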